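import Pool.Agent.H26.CIOp

namespace Pool.Agent.Results.MP_b2fb47_al.CompleteIntersection

universe u v

open CategoryTheory Pool.Agent.H26

theorem result (K : Type v) [Field K] (A : Type u) [Ring A] [Algebra K A]
    [FiniteDimensional K A] (B : Type u) [Ring B] (c : ℕ) (hc : 0 < c) (t : Fin c → B)
    (ht : IsRegularSystem t)
    (hB : ∀ X : ModuleCat.{u} Bᵐᵒᵖ, HasProjectiveDimensionLE X (c + 2))
    (π : B →+* A) (hπ : Function.Surjective π)
    (hker : RingHom.ker π = Ideal.span (Set.range t)) (k : ℕ) (hk : 2 ≤ k) :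
    o k Aᵐᵒᵖ = numSimples Aᵐᵒᵖ ∧ numSimples Aᵐᵒᵖ < ⊤ := by
  refine ⟨o_eq K k hk ?_, numSimples_lt_top K⟩
  intro M _ hM N _
  have := ci_pd_right hc t ht 2 hB π hπ hker M (hM 2 (by norm_num) hk)
  exact HasProjectiveDimensionLT.subsingleton M 3 3 le_rfl N

end Pool.Agent.Results.MP_b2fb47_al.CompleteIntersection
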