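import Pool.Agent.H26.Periodic

namespace Pool.Agent.Results.MP_b2fb47_al.GorDimTwo

universe u v

open CategoryTheory Pool.Agent.H26

theorem result (K : Type v) [Field K] (A : Type u) [Ring A] [Algebra K A]
    [FiniteDimensional K A] (hA : HasInjectiveDimensionLE (ModuleCat.of Aᵐᵒᵖ Aᵐᵒᵖ) 2)
    (k : ℕ) (hk : 2 ≤ k) (hr : numSecondSyzygies Aᵐᵒᵖ ≤ k) :
    o k Aᵐᵒᵖ = numSimples Aᵐᵒᵖ ∧ numSimples Aᵐᵒᵖ < ⊤ := by
  refine ⟨o_eq K k hk ?_, numSimples_lt_top K⟩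
  intro M hfin hM N _
  exact ext_three_of_rigid K
    (fun X _ i hi => HasInjectiveDimensionLT.subsingleton (ModuleCat.of Aᵐᵒᵖ Aᵐᵒᵖ) 3 i hi X)
    k hk hr M hfin hM N

end Pool.Agent.Results.MP_b2fb47_al.GorDimTwo
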