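import Pool.Agent.H26.Wrap

namespace Pool.Agent.Results.MP_b2fb47_al.ProjDimTwo

universe u v

open CategoryTheory Pool.Agent.H26

theorem result (K : Type v) [Field K] (A : Type u) [Ring A] [Algebra K A]
    [FiniteDimensional K A] :
    numSimples Aᵐᵒᵖ < ⊤ ∧
    (∀ M : ModuleCat.{u} Aᵐᵒᵖ, Module.Finite Aᵐᵒᵖ M → HasProjectiveDimensionLE M 2 →
      IsRigid 2 M → size M ≤ numSimples Aᵐᵒᵖ) ∧
    (∀ k : ℕ, 2 ≤ k →
      (∀ M : ModuleCat.{u} Aᵐᵒᵖ, Module.Finite Aᵐᵒᵖ M → IsRigid k M →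
        HasProjectiveDimensionLE M 2) →
      o k Aᵐᵒᵖ = numSimples Aᵐᵒᵖ) := by
  refine ⟨numSimples_lt_top K, ?_, ?_⟩
  · intro M hfin hpd hM
    exact size_le K M hfin (fun N _ => HasProjectiveDimensionLT.subsingleton M 3 3 le_rfl N) hM
  · intro k hk h
    refine o_eq K k hk ?_
    intro M hfin hM N _
    have := h M hfin hM
    exact HasProjectiveDimensionLT.subsingleton M 3 3 le_rfl N

end Pool.Agent.Results.MP_b2fb47_al.ProjDimTwo
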