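import Pool.Agent.H26.GendoMain
import Pool.Agent.H38.B2.Asm

/-!
Over every field of characteristic zero there is a gendo-symmetric algebra `A` (finite-dimensional,
connected, not semisimple) with `o_k(A) = ∞` for all `k`.
-/

namespace Pool.Agent.Results.MP_b2fb47_al.RigidUnbounded

universe u

open Pool.Agent.H26

theorem result (K : Type u) [Field K] [CharZero K] :
    ∃ (A : Type u) (_ : Ring A) (_ : Algebra K A), IsAlg K A ∧ IsGendoSymmetric K A ∧
      ∀ k : ℕ, o k Aᵐᵒᵖ = ⊤ := by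
  have h : IsAlg K (Pool.Agent.H38.B2.AA K) :=
    ⟨inferInstance, Pool.Agent.H38.B2.AA_connected, Pool.Agent.H38.B2.AA_not_semisimple⟩
  refine ⟨(Gendo.GE K (Pool.Agent.H38.B2.AA K))ᵐᵒᵖ, inferInstance, inferInstance,
    Gendo.isAlg_op_GE h, isGendoSymmetric_op_GE K _ h, fun k => ?_⟩
  rw [eq_top_iff, ← Pool.Agent.H38.B2.o_AA (K := K) k]
  exact o_le_op_GE K (Pool.Agent.H38.B2.AA K) k

end Pool.Agent.Results.MP_b2fb47_al.RigidUnbounded
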